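import Mathlib

/-!
# A self-similar continuum in `ℝ³`

`T S` is the union of three copies of `S`, contracted by `1/3` in the first two coordinates (the
third coordinate is not changed), of which the middle one is shifted by `1/3` in the second
coordinate, and of two horizontal segments which join them, at the heights `0` and `1`.
`KK` is the intersection of the sets `T^[n] K0`.
-/

set_option autoImplicit false

open Set Topology

noncomputable section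

namespace Pool.Agent.KS6_50.SE

abbrev R3 := ℝ × ℝ × ℝ

def f0 (v : R3) : R3 := (v.1 / 3, v.2.1 / 3, v.2.2)
def f1 (v : R3) : R3 := ((v.1 + 1) / 3, (v.2.1 + 1) / 3, v.2.2)
def f2 (v : R3) : R3 := ((v.1 + 2) / 3, v.2.1 / 3, v.2.2)

/-- the bridge between the first and the second copy, at height `0` -/
def B0 : Set R3 := {v | v.1 = 1 / 3 ∧ (0 ≤ v.2.1 ∧ v.2.1 ≤ 1 / 3) ∧ v.2.2 = 0}
/-- the bridge between the second and the third copy, at height `1` -/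
def B1 : Set R3 := {v | v.1 = 2 / 3 ∧ (0 ≤ v.2.1 ∧ v.2.1 ≤ 1 / 3) ∧ v.2.2 = 1}

def T (S : Set R3) : Set R3 := f0 '' S ∪ B0 ∪ f1 '' S ∪ B1 ∪ f2 '' S

def K0 : Set R3 :=
  {v | (0 ≤ v.1 ∧ v.1 ≤ 1) ∧ (0 ≤ v.2.1 ∧ v.2.1 ≤ 1 / 2) ∧ (0 ≤ v.2.2 ∧ v.2.2 ≤ 1)}

def KK : Set R3 := ⋂ n : ℕ, T^[n] K0

theorem mem_T {S : Set R3} {v : R3} : v ∈ T S ↔
    v ∈ f0 '' S ∨ v ∈ B0 ∨ v ∈ f1 '' S ∨ v ∈ B1 ∨ v ∈ f2 '' S := by
  simp only [T, mem_union]
  tauto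

theorem T_mono : Monotone T := by
  intro S S' h
  unfold T
  gcongr

theorem T_K0 {S : Set R3} (hS : S ⊆ K0) : T S ⊆ K0 := by
  intro v hv
  rcases mem_T.1 hv with ⟨w, hw, rfl⟩ | ⟨h1, ⟨h2, h3⟩, h4⟩ | ⟨w, hw, rfl⟩ | ⟨h1, ⟨h2, h3⟩, h4⟩ |
    ⟨w, hw, rfl⟩
  · obtain ⟨⟨a1, a2⟩, ⟨a3, a4⟩, ⟨a5, a6⟩⟩ := hS hw
    refine ⟨⟨?_, ?_⟩, ⟨?_, ?_⟩, ⟨?_, ?_⟩⟩ <;> simp only [f0] <;> linarith
  · refine ⟨⟨?_, ?_⟩, ⟨?_, ?_⟩, ⟨?_, ?_⟩⟩ <;> linarith
  · obtain ⟨⟨a1, a2⟩, ⟨a3, a4⟩, ⟨a5, a6⟩⟩ := hS hw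
    refine ⟨⟨?_, ?_⟩, ⟨?_, ?_⟩, ⟨?_, ?_⟩⟩ <;> simp only [f1] <;> linarith
  · refine ⟨⟨?_, ?_⟩, ⟨?_, ?_⟩, ⟨?_, ?_⟩⟩ <;> linarith
  · obtain ⟨⟨a1, a2⟩, ⟨a3, a4⟩, ⟨a5, a6⟩⟩ := hS hw
    refine ⟨⟨?_, ?_⟩, ⟨?_, ?_⟩, ⟨?_, ?_⟩⟩ <;> simp only [f2] <;> linarith

theorem Kn_anti : Antitone fun n : ℕ => T^[n] K0 := by
  apply antitone_nat_of_succ_le
  intro n
  rw [Function.iterate_succ_apply]
  exact T_mono.iterate n (T_K0 Subset.rfl)

/-- the properties which are inherited -/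
def Good (S : Set R3) : Prop :=
  IsCompact S ∧ IsConnected S ∧ ∀ z : ℝ, 0 ≤ z → z ≤ 1 →
    ((0 : ℝ), (0 : ℝ), z) ∈ S ∧ ((1 : ℝ), (0 : ℝ), z) ∈ S

theorem K0_eq : K0 = Icc 0 1 ×ˢ (Icc 0 (1 / 2) ×ˢ Icc 0 1) := by
  ext v
  simp only [K0, mem_ofPred_eq, mem_prod, mem_Icc]

theorem B0_eq : B0 = {1 / 3} ×ˢ (Icc 0 (1 / 3) ×ˢ {0}) := by
  ext v
  simp only [B0, mem_ofPred_eq, mem_prod, mem_Icc, mem_singleton_iff]

theorem B1_eq : B1 = {2 / 3} ×ˢ (Icc 0 (1 / 3) ×ˢ {1}) := by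
  ext v
  simp only [B1, mem_ofPred_eq, mem_prod, mem_Icc, mem_singleton_iff]

theorem f0_cont : Continuous f0 := by unfold f0; fun_prop
theorem f1_cont : Continuous f1 := by unfold f1; fun_prop
theorem f2_cont : Continuous f2 := by unfold f2; fun_prop

theorem B0_compact : IsCompact B0 := by
  rw [B0_eq]; exact isCompact_singleton.prod (isCompact_Icc.prod isCompact_singleton)

theorem B1_compact : IsCompact B1 := by
  rw [B1_eq]; exact isCompact_singleton.prod (isCompact_Icc.prod isCompact_singleton)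

theorem B0_conn : IsConnected B0 := by
  rw [B0_eq]
  exact isConnected_singleton.prod ((isConnected_Icc (by norm_num)).prod isConnected_singleton)

theorem B1_conn : IsConnected B1 := by
  rw [B1_eq]
  exact isConnected_singleton.prod ((isConnected_Icc (by norm_num)).prod isConnected_singleton)

theorem good_K0 : Good K0 := by
  refine ⟨?_, ?_, ?_⟩
  · rw [K0_eq]; exact isCompact_Icc.prod (isCompact_Icc.prod isCompact_Icc)
  · rw [K0_eq]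
    exact (isConnected_Icc (by norm_num)).prod ((isConnected_Icc (by norm_num)).prod
      (isConnected_Icc (by norm_num)))
  · intro z h1 h2
    refine ⟨⟨⟨?_, ?_⟩, ⟨?_, ?_⟩, ⟨?_, ?_⟩⟩, ⟨⟨?_, ?_⟩, ⟨?_, ?_⟩, ⟨?_, ?_⟩⟩⟩ <;>
      simp only <;> linarith

theorem Good.step {S : Set R3} (h : Good S) : Good (T S) := by
  obtain ⟨hc, hn, hp⟩ := h
  refine ⟨?_, ?_, ?_⟩
  · exact ((((hc.image f0_cont).union B0_compact).union (hc.image f1_cont)).union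
      B1_compact).union (hc.image f2_cont)
  · have c0 := hn.image f0 f0_cont.continuousOn
    have c1 := hn.image f1 f1_cont.continuousOn
    have c2 := hn.image f2 f2_cont.continuousOn
    have h1 : IsConnected (f0 '' S ∪ B0) := by
      refine IsConnected.union ⟨(1 / 3, 0, 0), ⟨(1, 0, 0), (hp 0 le_rfl zero_le_one).2, ?_⟩, ?_⟩
        c0 B0_conn
      · simp [f0]
      · refine ⟨?_, ⟨?_, ?_⟩, ?_⟩ <;> norm_num
    have h2 : IsConnected (f0 '' S ∪ B0 ∪ f1 '' S) := by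
      refine IsConnected.union ⟨(1 / 3, 1 / 3, 0), Or.inr ?_,
        ⟨(0, 0, 0), (hp 0 le_rfl zero_le_one).1, ?_⟩⟩ h1 c1
      · refine ⟨?_, ⟨?_, ?_⟩, ?_⟩ <;> norm_num
      · simp [f1]
    have h3 : IsConnected (f0 '' S ∪ B0 ∪ f1 '' S ∪ B1) := by
      refine IsConnected.union ⟨(2 / 3, 1 / 3, 1), Or.inr
        ⟨(1, 0, 1), (hp 1 zero_le_one le_rfl).2, ?_⟩, ?_⟩ h2 B1_conn
      · simp only [f1, Prod.mk.injEq]; norm_num
      · refine ⟨?_, ⟨?_, ?_⟩, ?_⟩ <;> norm_num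
    refine IsConnected.union ⟨(2 / 3, 0, 1), Or.inr ?_,
        ⟨(0, 0, 1), (hp 1 zero_le_one le_rfl).1, ?_⟩⟩ h3 c2
    · refine ⟨?_, ⟨?_, ?_⟩, ?_⟩ <;> norm_num
    · simp only [f2, Prod.mk.injEq]; norm_num
  · intro z h1 h2
    refine ⟨mem_T.2 (Or.inl ⟨_, (hp z h1 h2).1, ?_⟩),
      mem_T.2 (Or.inr (Or.inr (Or.inr (Or.inr ⟨_, (hp z h1 h2).2, ?_⟩))))⟩
    · simp [f0]
    · simp only [f2, Prod.mk.injEq]; norm_num

theorem good_Kn (n : ℕ) : Good (T^[n] K0) := by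
  induction n with
  | zero => exact good_K0
  | succ n ih => rw [Function.iterate_succ_apply']; exact ih.step

theorem KK_compact : IsCompact KK := by
  have h : IsClosed KK := isClosed_iInter fun n => (good_Kn n).1.isClosed
  exact (good_Kn 0).1.of_isClosed_subset h (iInter_subset _ 0)

theorem corners {z : ℝ} (h1 : 0 ≤ z) (h2 : z ≤ 1) :
    ((0 : ℝ), (0 : ℝ), z) ∈ KK ∧ ((1 : ℝ), (0 : ℝ), z) ∈ KK :=
  ⟨mem_iInter.2 fun n => ((good_Kn n).2.2 z h1 h2).1,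
    mem_iInter.2 fun n => ((good_Kn n).2.2 z h1 h2).2⟩

theorem preconn_iInter {X : Type} [TopologicalSpace X] [T2Space X] [NormalSpace X]
    {V : ℕ → Set X} (hV : Antitone V) (hc : ∀ n, IsCompact (V n))
    (hp : ∀ n, IsPreconnected (V n)) : IsPreconnected (⋂ n, V n) := by
  have hcl : IsClosed (⋂ n, V n) := isClosed_iInter fun n => (hc n).isClosed
  rw [isPreconnected_iff_subset_of_fully_disjoint_closed hcl]
  intro u v hu hv huv hd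
  obtain ⟨U, W, hU, hW, huU, hvW, hUW⟩ := normal_separation hu hv hd
  obtain ⟨n, hn⟩ := exists_subset_nhds_of_isCompact' (V := V) (U := U ∪ W)
    (fun i j => ⟨max i j, hV (le_max_left i j), hV (le_max_right i j)⟩) hc
    (fun n => (hc n).isClosed)
    (fun x hx => (hU.union hW).mem_nhds ((union_subset_union huU hvW) (huv hx)))
  rcases (hp n).subset_or_subset hU hW hUW hn with h | h
  · left
    intro x hx
    rcases huv hx with h1 | h1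
    · exact h1
    · exact absurd (hvW h1) (disjoint_left.1 hUW (h (mem_iInter.1 hx n)))
  · right
    intro x hx
    rcases huv hx with h1 | h1
    · exact absurd (h (mem_iInter.1 hx n)) (disjoint_left.1 hUW (huU h1))
    · exact h1

theorem KK_conn : IsConnected KK :=
  ⟨⟨_, (corners le_rfl zero_le_one).1⟩,
    preconn_iInter Kn_anti (fun n => (good_Kn n).1) fun n => (good_Kn n).2.1.isPreconnected⟩

/-- symmetry of the set -/
theorem symm_T {S : Set R3} (h : ∀ v ∈ S, (1 - v.1, v.2.1, 1 - v.2.2) ∈ S) :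
    ∀ v ∈ T S, (1 - v.1, v.2.1, 1 - v.2.2) ∈ T S := by
  intro v hv
  rcases mem_T.1 hv with ⟨w, hw, rfl⟩ | ⟨h1, ⟨h2, h3⟩, h4⟩ | ⟨w, hw, rfl⟩ | ⟨h1, ⟨h2, h3⟩, h4⟩ |
    ⟨w, hw, rfl⟩
  · refine mem_T.2 (Or.inr (Or.inr (Or.inr (Or.inr ⟨_, h w hw, ?_⟩))))
    simp only [f0, f2, Prod.mk.injEq, and_true]
    ring
  · refine mem_T.2 (Or.inr (Or.inr (Or.inr (Or.inl ⟨?_, ⟨?_, ?_⟩, ?_⟩)))) <;>
      simp only <;> linarith
  · refine mem_T.2 (Or.inr (Or.inr (Or.inl ⟨_, h w hw, ?_⟩)))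
    simp only [f1, Prod.mk.injEq, and_true]
    ring
  · refine mem_T.2 (Or.inr (Or.inl ⟨?_, ⟨?_, ?_⟩, ?_⟩)) <;> simp only <;> linarith
  · refine mem_T.2 (Or.inl ⟨_, h w hw, ?_⟩)
    simp only [f0, f2, Prod.mk.injEq, and_true]
    ring

theorem symm_KK {v : R3} (hv : v ∈ KK) : (1 - v.1, v.2.1, 1 - v.2.2) ∈ KK := by
  have h : ∀ n, ∀ v ∈ T^[n] K0, (1 - v.1, v.2.1, 1 - v.2.2) ∈ T^[n] K0 := by
    intro n
    induction n with
    | zero =>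
      rintro v ⟨⟨a1, a2⟩, ⟨a3, a4⟩, ⟨a5, a6⟩⟩
      refine ⟨⟨?_, ?_⟩, ⟨?_, ?_⟩, ⟨?_, ?_⟩⟩ <;> simp only <;> linarith
    | succ n ih =>
      rw [Function.iterate_succ_apply']
      exact symm_T ih
  exact mem_iInter.2 fun n => h n v (mem_iInter.1 hv n)

/-- localisation in a cell -/
theorem loc (n : ℕ) : ∀ k : ℕ, ∃ c : ℝ, ∀ S ⊆ K0, ∀ v ∈ T^[n] S, (k : ℝ) < 3 ^ n * v.1 →
    3 ^ n * v.1 < k + 1 → (3 ^ n * v.1 - k, 3 ^ n * v.2.1 - c, v.2.2) ∈ S := by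
  induction n with
  | zero =>
    intro k
    refine ⟨0, fun S hS v hv h1 h2 => ?_⟩
    have hv' : v ∈ S := hv
    obtain ⟨⟨a1, a2⟩, -⟩ := hS hv'
    rw [pow_zero, one_mul] at h1 h2
    have hk : (k : ℝ) < 1 := by linarith
    have hk' : k = 0 := by
      have : k < 1 := by exact_mod_cast hk
      omega
    subst hk'
    simpa using hv'
  | succ n ih =>
    intro k
    obtain ⟨k', j, hj, rfl⟩ : ∃ k' j : ℕ, j < 3 ∧ k = 3 * k' + j :=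
      ⟨k / 3, k % 3, Nat.mod_lt _ (by norm_num), by omega⟩
    obtain ⟨c', hc'⟩ := ih k'
    refine ⟨3 * c' + if j = 1 then 1 else 0, fun S hS v hv h1 h2 => ?_⟩
    rw [Function.iterate_succ_apply] at hv
    have hj0 : (0 : ℝ) ≤ j := by positivity
    have hj2 : (j : ℝ) ≤ 2 := by
      have : j ≤ 2 := by omega
      exact_mod_cast this
    push_cast at h1 h2
    rw [pow_succ] at h1 h2
    have h3 : (k' : ℝ) < 3 ^ n * v.1 := by linarith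
    have h4 : 3 ^ n * v.1 < k' + 1 := by linarith
    have hw := hc' (T S) (T_K0 hS) v hv h3 h4
    set w : R3 := (3 ^ n * v.1 - k', 3 ^ n * v.2.1 - c', v.2.2) with hwdef
    have hw1 : (j : ℝ) < 3 * w.1 := by
      simp only [hwdef]; linarith
    have hw2 : 3 * w.1 < j + 1 := by
      simp only [hwdef]; linarith
    have goal : ∀ u ∈ S, 3 * w.1 = u.1 + j → 3 * w.2.1 = u.2.1 + (if j = 1 then 1 else 0) →
        w.2.2 = u.2.2 →
        (3 ^ (n + 1) * v.1 - ((3 * k' + j : ℕ) : ℝ),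
          3 ^ (n + 1) * v.2.1 - (3 * c' + if j = 1 then 1 else 0), v.2.2) ∈ S := by
      intro u hu e1 e2 e3
      have : u = (3 ^ (n + 1) * v.1 - ((3 * k' + j : ℕ) : ℝ),
          3 ^ (n + 1) * v.2.1 - (3 * c' + if j = 1 then 1 else 0), v.2.2) := by
        simp only [hwdef] at e1 e2 e3
        refine Prod.ext ?_ (Prod.ext ?_ ?_)
        · push_cast
          rw [pow_succ]
          linarith
        · rw [pow_succ]
          linarith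
        · exact e3.symm
      rw [← this]
      exact hu
    rcases mem_T.1 hw with ⟨u, hu, e⟩ | ⟨e1, -, -⟩ | ⟨u, hu, e⟩ | ⟨e1, -, -⟩ | ⟨u, hu, e⟩
    · obtain ⟨⟨a1, a2⟩, -⟩ := hS hu
      have b1 : w.1 = u.1 / 3 := by rw [← e]; rfl
      have b2 : w.2.1 = u.2.1 / 3 := by rw [← e]; rfl
      have b3 : w.2.2 = u.2.2 := by rw [← e]; rfl
      have hj' : j = 0 := by
        have : (j : ℝ) < 1 := by rw [b1] at hw1; linarith
        have : j < 1 := by exact_mod_cast this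
        omega
      subst hj'
      apply goal u hu _ _ b3
      · rw [b1]; push_cast; ring
      · rw [b2]; simp; ring
    · exfalso
      rw [e1] at hw1 hw2
      have h5 : (j : ℝ) < 1 := by linarith
      have h6 : (0 : ℝ) < j := by linarith
      have h5' : j < 1 := by exact_mod_cast h5
      have h6' : 0 < j := by exact_mod_cast h6
      omega
    · obtain ⟨⟨a1, a2⟩, -⟩ := hS hu
      have b1 : w.1 = (u.1 + 1) / 3 := by rw [← e]; rfl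
      have b2 : w.2.1 = (u.2.1 + 1) / 3 := by rw [← e]; rfl
      have b3 : w.2.2 = u.2.2 := by rw [← e]; rfl
      have hj' : j = 1 := by
        have h5 : (j : ℝ) < 2 := by rw [b1] at hw1; linarith
        have h6 : (0 : ℝ) < j := by rw [b1] at hw2; linarith
        have h5' : j < 2 := by exact_mod_cast h5
        have h6' : 0 < j := by exact_mod_cast h6
        omega
      subst hj'
      apply goal u hu _ _ b3
      · rw [b1]; push_cast; ring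
      · rw [b2]; simp; ring
    · exfalso
      rw [e1] at hw1 hw2
      have h5 : (j : ℝ) < 2 := by linarith
      have h6 : (1 : ℝ) < j := by linarith
      have h5' : j < 2 := by exact_mod_cast h5
      have h6' : 1 < j := by exact_mod_cast h6
      omega
    · obtain ⟨⟨a1, a2⟩, -⟩ := hS hu
      have b1 : w.1 = (u.1 + 2) / 3 := by rw [← e]; rfl
      have b2 : w.2.1 = u.2.1 / 3 := by rw [← e]; rfl
      have b3 : w.2.2 = u.2.2 := by rw [← e]; rfl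
      have hj' : j = 2 := by
        have : (1 : ℝ) < j := by rw [b1] at hw2; linarith
        have : 1 < j := by exact_mod_cast this
        omega
      subst hj'
      apply goal u hu _ _ b3
      · rw [b1]; push_cast; ring
      · rw [b2]; simp; ring

/-- in a cell, the set lies in a copy of `T K0` -/
theorem loc_KK (n k : ℕ) : ∃ c : ℝ, ∀ v ∈ KK, (k : ℝ) < 3 ^ n * v.1 →
    3 ^ n * v.1 < k + 1 → (3 ^ n * v.1 - k, 3 ^ n * v.2.1 - c, v.2.2) ∈ T K0 := by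
  obtain ⟨c, hc⟩ := loc n k
  refine ⟨c, fun v hv h1 h2 => hc (T K0) (T_K0 Subset.rfl) v ?_ h1 h2⟩
  have := mem_iInter.1 hv (n + 1)
  rwa [Function.iterate_succ_apply] at this

theorem TK0_a {w : R3} (hw : w ∈ T K0) (h : w.1 < 1 / 3) : w.2.1 ≤ 1 / 6 := by
  rcases mem_T.1 hw with ⟨u, ⟨⟨a1, a2⟩, ⟨a3, a4⟩, -⟩, rfl⟩ | ⟨e1, -, -⟩ |
    ⟨u, ⟨⟨a1, a2⟩, ⟨a3, a4⟩, -⟩, rfl⟩ | ⟨e1, -, -⟩ | ⟨u, ⟨⟨a1, a2⟩, ⟨a3, a4⟩, -⟩, rfl⟩ <;>
    (try simp only [f0, f1, f2] at *) <;> linarith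

theorem TK0_b {w : R3} (hw : w ∈ T K0) (h : 1 / 3 < w.1) (h' : w.1 < 2 / 3) :
    1 / 3 ≤ w.2.1 := by
  rcases mem_T.1 hw with ⟨u, ⟨⟨a1, a2⟩, ⟨a3, a4⟩, -⟩, rfl⟩ | ⟨e1, -, -⟩ |
    ⟨u, ⟨⟨a1, a2⟩, ⟨a3, a4⟩, -⟩, rfl⟩ | ⟨e1, -, -⟩ | ⟨u, ⟨⟨a1, a2⟩, ⟨a3, a4⟩, -⟩, rfl⟩ <;>
    (try simp only [f0, f1, f2] at *) <;> linarith

theorem TK0_c {w : R3} (hw : w ∈ T K0) (h : 2 / 3 < w.1) : w.2.1 ≤ 1 / 6 := by
  rcases mem_T.1 hw with ⟨u, ⟨⟨a1, a2⟩, ⟨a3, a4⟩, -⟩, rfl⟩ | ⟨e1, -, -⟩ |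
    ⟨u, ⟨⟨a1, a2⟩, ⟨a3, a4⟩, -⟩, rfl⟩ | ⟨e1, -, -⟩ | ⟨u, ⟨⟨a1, a2⟩, ⟨a3, a4⟩, -⟩, rfl⟩ <;>
    (try simp only [f0, f1, f2] at *) <;> linarith

theorem TK0_d {w : R3} (hw : w ∈ T K0) (h : 1 / 6 < w.2.1) (h' : w.2.1 < 1 / 3)
    (h'' : w.1 < 2 / 3) : w.2.2 = 0 := by
  rcases mem_T.1 hw with ⟨u, ⟨⟨a1, a2⟩, ⟨a3, a4⟩, -⟩, rfl⟩ | ⟨e1, -, e2⟩ |
    ⟨u, ⟨⟨a1, a2⟩, ⟨a3, a4⟩, -⟩, rfl⟩ | ⟨e1, -, e2⟩ | ⟨u, ⟨⟨a1, a2⟩, ⟨a3, a4⟩, -⟩, rfl⟩
  · simp only [f0] at *; exfalso; linarith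
  · exact e2
  · simp only [f1] at *; exfalso; linarith
  · exfalso; linarith
  · simp only [f2] at *; exfalso; linarith

theorem TK0_e {w : R3} (hw : w ∈ T K0) (h : 1 / 6 < w.2.1) (h' : w.2.1 < 1 / 3)
    (h'' : 1 / 3 < w.1) : w.2.2 = 1 := by
  rcases mem_T.1 hw with ⟨u, ⟨⟨a1, a2⟩, ⟨a3, a4⟩, -⟩, rfl⟩ | ⟨e1, -, e2⟩ |
    ⟨u, ⟨⟨a1, a2⟩, ⟨a3, a4⟩, -⟩, rfl⟩ | ⟨e1, -, e2⟩ | ⟨u, ⟨⟨a1, a2⟩, ⟨a3, a4⟩, -⟩, rfl⟩
  · simp only [f0] at *; exfalso; linarith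
  · exfalso; linarith
  · simp only [f1] at *; exfalso; linarith
  · exact e2
  · simp only [f2] at *; exfalso; linarith

theorem KK_range {v : R3} (hv : v ∈ KK) : 0 ≤ v.1 ∧ v.1 ≤ 1 :=
  (mem_iInter.1 hv 0).1

end Pool.Agent.KS6_50.SE
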