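import Mathlib
import Pool.Agent.KS6_50.SE.SetK

/-!
# Crossings of a cell
-/

set_option autoImplicit false

open Set Topology

noncomputable section

namespace Pool.Agent.KS6_50.SE

abbrev I01 := unitInterval

theorem ivt_ge {f : I01 → ℝ} (hf : Continuous f) {a b : I01} {β : ℝ} (hab : a ≤ b)
    (h1 : f a < β) (h2 : β ≤ f b) : ∃ v, a < v ∧ v ≤ b ∧ f v = β ∧ ∀ r, a ≤ r → r < v → f r < β := by
  obtain ⟨v, ⟨hv, hvf⟩, hmin⟩ := ((isClosed_Icc (a := a) (b := b)).inter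
    (isClosed_Ici.preimage hf) : IsClosed (Icc a b ∩ f ⁻¹' Ici β)).isCompact.exists_isLeast
      ⟨b, ⟨hab, le_rfl⟩, h2⟩
  have hvf' : β ≤ f v := hvf
  have hlt : ∀ r, a ≤ r → r < v → f r < β := by
    intro r hr hrv
    by_contra hc
    push Not at hc
    exact absurd (hmin ⟨⟨hr, hrv.le.trans hv.2⟩, hc⟩) (not_le.2 hrv)
  have hav : a < v := by
    rcases hv.1.lt_or_eq with h | h
    · exact h
    · exfalso
      rw [h] at h1
      linarith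
  refine ⟨v, hav, hv.2, ?_, hlt⟩
  by_contra hne
  have hgt : β < f v := lt_of_le_of_ne hvf' (Ne.symm hne)
  obtain ⟨r, hr, hrf⟩ := intermediate_value_Icc hv.1 hf.continuousOn ⟨h1.le, hgt.le⟩
  have : r < v := by
    rcases hr.2.lt_or_eq with h | h
    · exact h
    · rw [h] at hrf; exact absurd hrf hne
  have := hlt r hr.1 this
  linarith

theorem ivt_le {f : I01 → ℝ} (hf : Continuous f) {a b : I01} {α : ℝ} (hab : a ≤ b)
    (h1 : f a ≤ α) (h2 : α < f b) : ∃ u, a ≤ u ∧ u < b ∧ f u = α ∧ ∀ r, u < r → r ≤ b → α < f r := by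
  obtain ⟨u, ⟨hu, huf⟩, hmax⟩ := ((isClosed_Icc (a := a) (b := b)).inter
    (isClosed_Iic.preimage hf) : IsClosed (Icc a b ∩ f ⁻¹' Iic α)).isCompact.exists_isGreatest
      ⟨a, ⟨le_rfl, hab⟩, h1⟩
  have huf' : f u ≤ α := huf
  have hlt : ∀ r, u < r → r ≤ b → α < f r := by
    intro r hr hrb
    by_contra hc
    push Not at hc
    exact absurd (hmax ⟨⟨hu.1.trans hr.le, hrb⟩, hc⟩) (not_le.2 hr)
  have hub : u < b := by
    rcases hu.2.lt_or_eq with h | h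
    · exact h
    · exfalso
      rw [← h] at h2
      linarith
  refine ⟨u, hu.1, hub, ?_, hlt⟩
  by_contra hne
  have hgt : f u < α := lt_of_le_of_ne huf' hne
  obtain ⟨r, hr, hrf⟩ := intermediate_value_Icc hu.2 hf.continuousOn ⟨hgt.le, h2.le⟩
  have : u < r := by
    rcases hr.1.lt_or_eq with h | h
    · exact h
    · rw [← h] at hrf; exact absurd hrf hne
  have := hlt r this hr.2
  linarith

/-- crossing, ending at the first time at the upper level -/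
theorem crossL {f : I01 → ℝ} (hf : Continuous f) {a b : I01} {α β : ℝ} (hab : a ≤ b)
    (h1 : f a ≤ α) (h2 : β ≤ f b) (h : α < β) : ∃ u v, a ≤ u ∧ u < v ∧ v ≤ b ∧ f u = α ∧ f v = β ∧
      (∀ r, u < r → r < v → α < f r ∧ f r < β) ∧ ∀ r, a ≤ r → r < v → f r < β := by
  obtain ⟨v, hav, hvb, hfv, hv⟩ := ivt_ge hf hab (lt_of_le_of_lt h1 h) h2
  obtain ⟨u, hau, huv, hfu, hu⟩ := ivt_le hf hav.le h1 (by rw [hfv]; exact h)
  exact ⟨u, v, hau, huv, hvb, hfu, hfv,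
    fun r hr1 hr2 => ⟨hu r hr1 hr2.le, hv r (hau.trans hr1.le) hr2⟩, hv⟩

/-- crossing, starting at the last time at the lower level -/
theorem crossR {f : I01 → ℝ} (hf : Continuous f) {a b : I01} {α β : ℝ} (hab : a ≤ b)
    (h1 : f a ≤ α) (h2 : β ≤ f b) (h : α < β) : ∃ u v, a ≤ u ∧ u < v ∧ v ≤ b ∧ f u = α ∧ f v = β ∧
      (∀ r, u < r → r < v → α < f r ∧ f r < β) ∧ ∀ r, u < r → r ≤ b → α < f r := by
  obtain ⟨u, hau, hub, hfu, hu⟩ := ivt_le hf hab h1 (lt_of_lt_of_le h h2)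
  obtain ⟨v, huv, hvb, hfv, hv⟩ := ivt_ge hf hub.le (by rw [hfu]; exact h) h2
  exact ⟨u, v, hau, huv, hvb, hfu, hfv,
    fun r hr1 hr2 => ⟨hu r hr1 (hr2.le.trans hvb), hv r hr1.le hr2⟩, hu⟩

/-- an upward passage touches `G` or contains a large excursion -/
theorem touch {f : I01 → ℝ} (hf : Continuous f) (G : Set I01) {a b : I01} {α β : ℝ} (hab : a ≤ b)
    (h1 : f a ≤ α) (h2 : β ≤ f b) (h : α < β) :
    (∃ ρ, a < ρ ∧ ρ < b ∧ ρ ∈ G ∧ α < f ρ ∧ f ρ < β) ∨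
      ∃ u v, a ≤ u ∧ u < v ∧ v ≤ b ∧ (∀ r, u < r → r < v → r ∉ G) ∧ f v - f u = β - α := by
  obtain ⟨u, v, hau, huv, hvb, hfu, hfv, hin, -⟩ := crossL hf hab h1 h2 h
  by_cases hG : ∃ ρ, u < ρ ∧ ρ < v ∧ ρ ∈ G
  · obtain ⟨ρ, h3, h4, h5⟩ := hG
    exact Or.inl ⟨ρ, lt_of_le_of_lt hau h3, lt_of_lt_of_le h4 hvb, h5, hin ρ h3 h4⟩
  · push Not at hG
    exact Or.inr ⟨u, v, hau, huv, hvb, hG, by rw [hfu, hfv]⟩

/-- **Cell lemma.** -/
theorem cell {X Y Z : I01 → ℝ} (hX : Continuous X) (hY : Continuous Y) (G : Set I01)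
    (hG : ∀ t ∈ G, 0 < X t → X t < 1 → (X t, Y t, Z t) ∈ T K0)
    {s t : I01} (hst : s < t) (hs : X s = 0) (ht : X t = 1)
    (hin : ∀ r, s < r → r < t → 0 < X r ∧ X r < 1) :
    (∃ u v, s ≤ u ∧ u < v ∧ v ≤ t ∧ (∀ r, u < r → r < v → r ∉ G) ∧
      (1 / 6 ≤ |X v - X u| ∨ 1 / 6 ≤ |Y v - Y u|)) ∨
    ((∃ r, s ≤ r ∧ r ≤ t ∧ Z r = 0) ∧ ∃ r, s ≤ r ∧ r ≤ t ∧ Z r = 1) := by
  by_cases hcon : ∃ u v, s ≤ u ∧ u < v ∧ v ≤ t ∧ (∀ r, u < r → r < v → r ∉ G) ∧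
      (1 / 6 ≤ |X v - X u| ∨ 1 / 6 ≤ |Y v - Y u|)
  · exact Or.inl hcon
  right
  push Not at hcon
  have hX' : ∀ {a b : I01} {α β : ℝ}, s ≤ a → a ≤ b → b ≤ t → X a ≤ α → β ≤ X b → α + 1 / 6 ≤ β →
      ∃ ρ, a < ρ ∧ ρ < b ∧ ρ ∈ G ∧ α < X ρ ∧ X ρ < β := by
    intro a b α β hsa hab hbt h1 h2 h
    rcases touch hX G hab h1 h2 (by linarith) with h3 | ⟨u, v, h3, h4, h5, h6, h7⟩
    · exact h3
    · exfalso
      have := (hcon u v (hsa.trans h3) h4 (h5.trans hbt) h6).1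
      rw [h7, abs_of_nonneg (by linarith)] at this
      linarith
  have hY' : ∀ {a b : I01}, s ≤ a → a ≤ b → b ≤ t → Y a ≤ 1 / 6 → 1 / 3 ≤ Y b →
      ∃ ρ, a < ρ ∧ ρ < b ∧ ρ ∈ G ∧ 1 / 6 < Y ρ ∧ Y ρ < 1 / 3 := by
    intro a b hsa hab hbt h1 h2
    rcases touch hY G hab h1 h2 (by norm_num) with h3 | ⟨u, v, h3, h4, h5, h6, h7⟩
    · exact h3
    · exfalso
      have := (hcon u v (hsa.trans h3) h4 (h5.trans hbt) h6).2
      rw [h7, abs_of_nonneg (by norm_num)] at this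
      norm_num at this
  have hY'' : ∀ {a b : I01}, s ≤ a → a ≤ b → b ≤ t → 1 / 3 ≤ Y a → Y b ≤ 1 / 6 →
      ∃ ρ, a < ρ ∧ ρ < b ∧ ρ ∈ G ∧ 1 / 6 < Y ρ ∧ Y ρ < 1 / 3 := by
    intro a b hsa hab hbt h1 h2
    rcases touch (f := fun r => - Y r) hY.neg G hab (α := -(1 / 3)) (β := -(1 / 6))
      (by linarith) (by linarith) (by norm_num) with ⟨ρ, h3, h4, h5, h6, h7⟩ |
        ⟨u, v, h3, h4, h5, h6, h7⟩
    · exact ⟨ρ, h3, h4, h5, by linarith, by linarith⟩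
    · exfalso
      have := (hcon u v (hsa.trans h3) h4 (h5.trans hbt) h6).2
      have h8 : Y v - Y u = -(1 / 6) := by linarith
      rw [h8, abs_neg, abs_of_nonneg (by norm_num)] at this
      norm_num at this
  constructor
  · obtain ⟨u, v, hsu, huv, hvt, hXu, hXv, h3, h4⟩ := crossL hX hst.le (α := 1 / 3) (β := 2 / 3)
      (by rw [hs]; norm_num) (by rw [ht]; norm_num) (by norm_num)
    obtain ⟨σ, hsσ, hσu, hσG, hσ0, hσ1⟩ := hX' (a := s) (b := u) (α := 0) (β := 1 / 3) le_rfl hsu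
      (huv.le.trans hvt) hs.le hXu.ge (by norm_num)
    obtain ⟨τ, huτ, hτv, hτG, hτ0, hτ1⟩ := hX' (a := u) (b := v) (α := 1 / 3) (β := 2 / 3) hsu
      huv.le hvt hXu.le hXv.ge (by norm_num)
    have e1 : Y σ ≤ 1 / 6 := TK0_a (hG σ hσG hσ0 (by linarith)) hσ1
    have e2 : 1 / 3 ≤ Y τ := TK0_b (hG τ hτG (by linarith) (by linarith)) hτ0 hτ1
    obtain ⟨ρ, h5, h6, h7, h8, h9⟩ := hY' hsσ.le (hσu.trans huτ).le (hτv.le.trans hvt) e1 e2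
    have h10 := hin ρ (hsσ.trans h5) (lt_of_lt_of_le (h6.trans hτv) hvt)
    have h11 : X ρ < 2 / 3 := h4 ρ (hsσ.trans h5).le (h6.trans hτv)
    exact ⟨ρ, (hsσ.trans h5).le, (h6.trans hτv).le.trans hvt,
      TK0_d (hG ρ h7 h10.1 h10.2) h8 h9 h11⟩
  · obtain ⟨u, v, hsu, huv, hvt, hXu, hXv, h3, h4⟩ := crossR hX hst.le (α := 1 / 3) (β := 2 / 3)
      (by rw [hs]; norm_num) (by rw [ht]; norm_num) (by norm_num)
    obtain ⟨τ, huτ, hτv, hτG, hτ0, hτ1⟩ := hX' (a := u) (b := v) (α := 1 / 3) (β := 2 / 3) hsu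
      huv.le hvt hXu.le hXv.ge (by norm_num)
    obtain ⟨σ, hvσ, hσt, hσG, hσ0, hσ1⟩ := hX' (a := v) (b := t) (α := 2 / 3) (β := 1)
      (hsu.trans huv.le) hvt le_rfl hXv.le ht.ge (by norm_num)
    have e1 : Y σ ≤ 1 / 6 := TK0_c (hG σ hσG (by linarith) hσ1) hσ0
    have e2 : 1 / 3 ≤ Y τ := TK0_b (hG τ hτG (by linarith) (by linarith)) hτ0 hτ1
    have hsτ : s < τ := lt_of_le_of_lt hsu huτ
    obtain ⟨ρ, h5, h6, h7, h8, h9⟩ := hY'' hsτ.le (hτv.trans hvσ).le hσt.le e2 e1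
    have h10 := hin ρ (hsτ.trans h5) (h6.trans hσt)
    have h11 : 1 / 3 < X ρ := h4 ρ (huτ.trans h5) (h6.trans hσt).le
    exact ⟨ρ, (hsτ.trans h5).le, (h6.trans hσt).le, TK0_e (hG ρ h7 h10.1 h10.2) h8 h9 h11⟩

end Pool.Agent.KS6_50.SE
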