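import Mathlib
import Pool.Agent.KS6_50.SE.Cross

/-!
# The sharp lower bound for the length spent outside
-/

set_option autoImplicit false

open Set Topology Filter

noncomputable section

namespace Pool.Agent.KS6_50.SE

/-- the connected components of the set of the times which `γ` spends outside `K` -/
abbrev Comp {E : Type} (γ : I01 → E) (K : Set E) : Type :=
  {J : Set I01 // ∃ t ∈ γ ⁻¹' Kᶜ, J = connectedComponentIn (γ ⁻¹' Kᶜ) t}

/-- The length that `γ` spends outside `K`: the sum, over the connected components `J` of the open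
set of parameters `t` with `γ t ∉ K`, of the length (variation) of `γ` restricted to `J`. -/
def lengthOutside {E : Type} [PseudoEMetricSpace E] (γ : I01 → E) (K : Set E) : ENNReal :=
  ∑' J : Comp γ K, eVariationOn γ J.1

variable {E : Type} [PseudoMetricSpace E]

theorem var_Ioo {γ : I01 → E} (hγ : Continuous γ) {a b : I01} (hab : a < b) :
    edist (γ a) (γ b) ≤ eVariationOn γ (Ioo a b) := by
  have h1 : (𝓝[>] a).NeBot := nhdsGT_neBot_of_exists_gt ⟨b, hab⟩
  have h2 : (𝓝[<] b).NeBot := nhdsLT_neBot_of_exists_lt ⟨a, hab⟩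
  have ht : Tendsto (fun p : I01 × I01 => edist (γ p.1) (γ p.2))
      (𝓝[>] a ×ˢ 𝓝[<] b) (𝓝 (edist (γ a) (γ b))) := by
    apply Tendsto.edist
    · exact ((hγ.tendsto a).mono_left nhdsWithin_le_nhds).comp tendsto_fst
    · exact ((hγ.tendsto b).mono_left nhdsWithin_le_nhds).comp tendsto_snd
  refine le_of_tendsto ht ?_
  have e1 : ∀ᶠ x in 𝓝[>] a, x ∈ Ioo a b := Ioo_mem_nhdsGT hab
  have e2 : ∀ᶠ x in 𝓝[<] b, x ∈ Ioo a b := Ioo_mem_nhdsLT hab
  filter_upwards [e1.prod_mk e2] with p hp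
  exact eVariationOn.edist_le γ hp.1 hp.2

theorem superadd (γ : I01 → E) (l r : ℕ → I01) (G : Finset ℕ) :
    ∀ J : Set I01, (∀ i ∈ G, ∀ j ∈ G, i < j → r i ≤ l j) →
      (∀ i ∈ G, Ioo (l i) (r i) ⊆ J) →
      ∑ i ∈ G, eVariationOn γ (Ioo (l i) (r i)) ≤ eVariationOn γ J := by
  induction G using Finset.induction_on_max with
  | empty => intro J _ _; simp
  | insert a G hmax ih =>
    intro J hord hsub
    have haG : a ∉ G := fun h => lt_irrefl a (hmax a h)
    rw [Finset.sum_insert haG, add_comm]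
    have h1 := ih (J ∩ Iic (l a)) (fun i hi j hj => hord i (Finset.mem_insert_of_mem hi) j
      (Finset.mem_insert_of_mem hj)) (by
        intro i hi x hx
        refine ⟨hsub i (Finset.mem_insert_of_mem hi) hx, ?_⟩
        exact hx.2.le.trans (hord i (Finset.mem_insert_of_mem hi) a (Finset.mem_insert_self _ _)
          (hmax i hi)))
    have h2 : eVariationOn γ (Ioo (l a) (r a)) ≤ eVariationOn γ (J ∩ Ici (l a)) :=
      eVariationOn.mono γ (fun x hx => ⟨hsub a (Finset.mem_insert_self _ _) hx, hx.1.le⟩)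
    refine (add_le_add h1 h2).trans ?_
    refine (eVariationOn.add_le_union γ ?_).trans (eVariationOn.mono γ ?_)
    · rintro x ⟨-, hx⟩ y ⟨-, hy⟩
      exact le_trans hx hy
    · exact union_subset inter_subset_left inter_subset_left

theorem family {γ : I01 → E} {K : Set E} (l r : ℕ → I01)
    (G : Finset ℕ) (hlr : ∀ i ∈ G, l i < r i) (hord : ∀ i ∈ G, ∀ j ∈ G, i < j → r i ≤ l j)
    (hU : ∀ i ∈ G, Ioo (l i) (r i) ⊆ γ ⁻¹' Kᶜ) :
    ∃ 𝓘 : Finset (Comp γ K), (∀ J ∈ 𝓘, ∃ i ∈ G, Ioo (l i) (r i) ⊆ J.1) ∧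
      ∑ i ∈ G, eVariationOn γ (Ioo (l i) (r i)) ≤ ∑ J ∈ 𝓘, eVariationOn γ J.1 := by
  classical
  let C : ℕ → Comp γ K → Prop := fun i J => Ioo (l i) (r i) ⊆ J.1
  have hC : ∀ i ∈ G, ∃ J, C i J := by
    intro i hi
    obtain ⟨x, hx⟩ : ∃ x, x ∈ Ioo (l i) (r i) := exists_between (hlr i hi)
    exact ⟨⟨connectedComponentIn (γ ⁻¹' Kᶜ) x, x, hU i hi hx, rfl⟩,
      isPreconnected_Ioo.subset_connectedComponentIn hx (hU i hi)⟩
  rcases G.eq_empty_or_nonempty with hG | ⟨i0, hi0⟩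
  · exact ⟨∅, by simp, by rw [hG]; simp⟩
  obtain ⟨J0, -⟩ := hC i0 hi0
  have hC' : ∀ i, ∃ J, i ∈ G → C i J := by
    intro i
    by_cases hi : i ∈ G
    · obtain ⟨J, hJ⟩ := hC i hi
      exact ⟨J, fun _ => hJ⟩
    · exact ⟨J0, fun h => absurd h hi⟩
  choose c hc using hC'
  refine ⟨G.image c, ?_, ?_⟩
  · intro J hJ
    obtain ⟨i, hi, rfl⟩ := Finset.mem_image.1 hJ
    exact ⟨i, hi, hc i hi⟩
  have hsum : ∑ i ∈ G, eVariationOn γ (Ioo (l i) (r i)) =
      ∑ J ∈ G.image c, ∑ i ∈ G with c i = J, eVariationOn γ (Ioo (l i) (r i)) :=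
    (Finset.sum_fiberwise_of_maps_to (fun i hi => Finset.mem_image_of_mem c hi) _).symm
  rw [hsum]
  apply Finset.sum_le_sum
  intro J _
  apply superadd
  · intro i hi j hj hij
    exact hord i (Finset.mem_filter.1 hi).1 j (Finset.mem_filter.1 hj).1 hij
  · intro i hi
    have h1 := Finset.mem_filter.1 hi
    have h2 := hc i h1.1
    rw [h1.2] at h2
    exact h2

theorem sum_gap (U V : ℕ → I01) (G : Finset ℕ) : ∀ T : ℝ, 0 ≤ T → (∀ i ∈ G, (V i : ℝ) ≤ T) →
    (∀ i ∈ G, ∀ j ∈ G, i < j → V i ≤ U j) → ∑ i ∈ G, ((V i : ℝ) - U i) ≤ T := by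
  induction G using Finset.induction_on_max with
  | empty => intro T hT _ _; simpa using hT
  | insert a G hmax ih =>
    intro T hT hV hord
    have haG : a ∉ G := fun h => lt_irrefl a (hmax a h)
    rw [Finset.sum_insert haG]
    have h1 := ih (U a) (U a).2.1 (fun i hi => hord i (Finset.mem_insert_of_mem hi) a
      (Finset.mem_insert_self _ _) (hmax i hi)) (fun i hi j hj => hord i
        (Finset.mem_insert_of_mem hi) j (Finset.mem_insert_of_mem hj))
    have h2 := hV a (Finset.mem_insert_self _ _)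
    linarith

theorem card_hit {x : I01 → ℝ} {J : Set I01} {P ℓ : ℝ} (hP : 0 ≤ P) (hℓ : 0 ≤ ℓ)
    (hJ : ∀ s ∈ J, ∀ t ∈ J, x s - x t ≤ ℓ) (S : Finset ℕ)
    (hS : ∀ k ∈ S, ∃ t ∈ J, (k : ℝ) < P * x t ∧ P * x t < k + 1) :
    (S.card : ℝ) ≤ P * ℓ + 2 := by
  rcases S.eq_empty_or_nonempty with h | h
  · rw [h]
    simp only [Finset.card_empty, Nat.cast_zero]
    positivity
  obtain ⟨t, ht, -, ht2⟩ := hS _ (S.min'_mem h)
  obtain ⟨s, hs, hs1, -⟩ := hS _ (S.max'_mem h)
  have h1 := mul_le_mul_of_nonneg_left (hJ s hs t ht) hP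
  have h2 : S ⊆ Finset.Icc (S.min' h) (S.max' h) := fun k hk =>
    Finset.mem_Icc.2 ⟨S.min'_le k hk, S.le_max' k hk⟩
  have h3 := Finset.card_le_card h2
  rw [Nat.card_Icc] at h3
  have h4 : S.min' h ≤ S.max' h := S.min'_le _ (S.max'_mem h)
  have h5 : (S.card : ℝ) ≤ S.max' h + 1 - S.min' h := by
    have : S.card + S.min' h ≤ S.max' h + 1 := by omega
    have : ((S.card + S.min' h : ℕ) : ℝ) ≤ ((S.max' h + 1 : ℕ) : ℝ) := by exact_mod_cast this
    push_cast at this
    linarith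
  linarith

/-- the estimate at the level `n` -/
theorem level {γ : I01 → E} (hγ : Continuous γ) {K : Set E} {x y z : I01 → ℝ}
    (hx : Continuous x) (hy : Continuous y) {D : ℝ} (hD : 0 < D)
    (hd1 : ∀ s t, D * |x s - x t| ≤ dist (γ s) (γ t))
    (hd2 : ∀ s t, D * |y s - y t| ≤ dist (γ s) (γ t))
    (hK : ∀ s, γ s ∈ K → (x s, y s, z s) ∈ KK) (h0 : 0 ≤ x 0)
    (hL : lengthOutside γ K ≠ ⊤) {δ : ℝ} (hδ : 0 < δ)
    (hz : ∀ s t : I01, |(s : ℝ) - t| < δ → |z s - z t| < 1) (𝒥 : Finset (Comp γ K)) {ε : ℝ}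
    (h𝒥 : (lengthOutside γ K).toReal - ε < ∑ J ∈ 𝒥, (eVariationOn γ J.1).toReal) (n : ℕ) :
    (3 : ℝ) ^ n * (x 1 - x 0) - 2 ≤
      3 ^ n * (((lengthOutside γ K).toReal + 6 * ε) / D) + 2 * 𝒥.card + 1 / δ := by
  classical
  have hv : ∀ J : Comp γ K, eVariationOn γ J.1 ≠ ⊤ := fun J => ENNReal.ne_top_of_tsum_ne_top hL J
  have hsum : Summable fun J : Comp γ K => (eVariationOn γ J.1).toReal :=
    ENNReal.summable_toReal hL
  have htot : (lengthOutside γ K).toReal = ∑' J : Comp γ K, (eVariationOn γ J.1).toReal :=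
    ENNReal.tsum_toReal_eq hv
  set P : ℝ := 3 ^ n with hPdef
  have hP : 0 < P := by positivity
  -- the cells
  let cells : Finset ℕ := Finset.Ico ⌈P * x 0⌉₊ ⌊P * x 1⌋₊
  have hcells : ∀ k ∈ cells, P * x 0 ≤ k ∧ (k : ℝ) + 1 ≤ P * x 1 := by
    intro k hk
    obtain ⟨h1, h2⟩ := Finset.mem_Ico.1 hk
    refine ⟨Nat.ceil_le.1 h1, ?_⟩
    have h3 : k + 1 ≤ ⌊P * x 1⌋₊ := h2
    have h4 : (0 : ℝ) ≤ P * x 1 := by
      by_contra hneg
      push Not at hneg
      rw [Nat.floor_of_nonpos hneg.le] at h3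
      omega
    have := (Nat.le_floor_iff h4).1 h3
    push_cast at this
    exact this
  have hcard : P * (x 1 - x 0) - 2 ≤ cells.card := by
    rw [Nat.card_Ico]
    have h1 : (⌈P * x 0⌉₊ : ℝ) < P * x 0 + 1 := Nat.ceil_lt_add_one (by positivity)
    have h2 : P * x 1 < ⌊P * x 1⌋₊ + 1 := Nat.lt_floor_add_one _
    have h3 : (⌊P * x 1⌋₊ : ℝ) ≤ ((⌊P * x 1⌋₊ - ⌈P * x 0⌉₊ : ℕ) : ℝ) + ⌈P * x 0⌉₊ := by
      have : ⌊P * x 1⌋₊ ≤ (⌊P * x 1⌋₊ - ⌈P * x 0⌉₊) + ⌈P * x 0⌉₊ := by omega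
      exact_mod_cast this
    linarith
  -- the crossings
  have hf : Continuous fun t => P * x t := continuous_const.mul hx
  have hcr : ∀ k : ℕ, ∃ u v : I01, k ∈ cells → u < v ∧ P * x u = k ∧ P * x v = k + 1 ∧
      (∀ r, u < r → r < v → (k : ℝ) < P * x r ∧ P * x r < k + 1) ∧
      ∀ r, r < v → P * x r < k + 1 := by
    intro k
    by_cases hk : k ∈ cells
    · obtain ⟨h1, h2⟩ := hcells k hk
      obtain ⟨u, v, -, huv, -, h3, h4, h5, h6⟩ := crossL hf (a := 0) (b := 1)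
        unitInterval.nonneg' h1 h2 (by linarith)
      exact ⟨u, v, fun _ => ⟨huv, h3, h4, h5, fun r hr => h6 r unitInterval.nonneg' hr⟩⟩
    · exact ⟨0, 0, fun h => absurd h hk⟩
  choose U V hUV using hcr
  have hord : ∀ i ∈ cells, ∀ j ∈ cells, i < j → V i ≤ U j := by
    intro i hi j hj hij
    by_contra hcon
    push Not at hcon
    have h1 := (hUV i hi).2.2.2.2 _ hcon
    rw [(hUV j hj).2.1] at h1
    have : (i : ℝ) + 1 ≤ j := by exact_mod_cast hij
    linarith
  -- hit, oscillating and remaining cells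
  let hit : ℕ → Prop := fun k => ∃ J ∈ 𝒥, ∃ t ∈ J.1, (k : ℝ) < P * x t ∧ P * x t < k + 1
  let osc : ℕ → Prop := fun k => (∃ r, U k ≤ r ∧ r ≤ V k ∧ z r = 0) ∧
    ∃ r, U k ≤ r ∧ r ≤ V k ∧ z r = 1
  let H := cells.filter hit
  let O := cells.filter osc
  let R := cells.filter fun k => ¬ hit k ∧ ¬ osc k
  have hcov : cells ⊆ H ∪ O ∪ R := by
    intro k hk
    simp only [H, O, R, Finset.mem_union, Finset.mem_filter]
    by_cases h1 : hit k
    · exact Or.inl (Or.inl ⟨hk, h1⟩)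
    · by_cases h2 : osc k
      · exact Or.inl (Or.inr ⟨hk, h2⟩)
      · exact Or.inr ⟨hk, h1, h2⟩
  have hcard2 : (cells.card : ℝ) ≤ H.card + O.card + R.card := by
    have h1 := Finset.card_le_card hcov
    have h2 := Finset.card_union_le (H ∪ O) R
    have h3 := Finset.card_union_le H O
    have : cells.card ≤ H.card + O.card + R.card := by omega
    exact_mod_cast this
  -- hit cells
  have hJd : ∀ J : Comp γ K, ∀ s ∈ J.1, ∀ t ∈ J.1,
      x s - x t ≤ (eVariationOn γ J.1).toReal / D := by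
    intro J s hs t ht
    have h1 := eVariationOn.edist_le γ hs ht
    rw [edist_dist] at h1
    have h2 := (ENNReal.ofReal_le_iff_le_toReal (hv J)).1 h1
    rw [le_div_iff₀ hD, mul_comm]
    exact (mul_le_mul_of_nonneg_left (le_abs_self _) hD.le).trans ((hd1 s t).trans h2)
  have hH : (H.card : ℝ) ≤ P * ∑ J ∈ 𝒥, (eVariationOn γ J.1).toReal / D + 2 * 𝒥.card := by
    let F : Comp γ K → Finset ℕ := fun J => cells.filter fun k : ℕ =>
        ∃ t ∈ J.1, (k : ℝ) < P * x t ∧ P * x t < k + 1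
    have h1 : H ⊆ 𝒥.biUnion F := by
      intro k hk
      obtain ⟨hk1, J, hJ, ht⟩ := Finset.mem_filter.1 hk
      exact Finset.mem_biUnion.2 ⟨J, hJ, Finset.mem_filter.2 ⟨hk1, ht⟩⟩
    have h2 := (Finset.card_le_card h1).trans Finset.card_biUnion_le
    have h3 : (H.card : ℝ) ≤ ∑ J ∈ 𝒥, ((F J).card : ℝ) := by exact_mod_cast h2
    refine h3.trans ?_
    have h4 : ∀ J ∈ 𝒥, ((F J).card : ℝ) ≤ P * ((eVariationOn γ J.1).toReal / D) + 2 := by
      intro J _
      apply card_hit hP.le (div_nonneg ENNReal.toReal_nonneg hD.le) (hJd J)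
      intro k hk
      exact (Finset.mem_filter.1 hk).2
    refine (Finset.sum_le_sum h4).trans (le_of_eq ?_)
    rw [Finset.sum_add_distrib, Finset.mul_sum, Finset.sum_const, nsmul_eq_mul, mul_comm 2]
  -- oscillating cells
  have hO : (O.card : ℝ) ≤ 1 / δ := by
    rw [le_div_iff₀ hδ]
    have h1 : (O.card : ℝ) * δ ≤ ∑ k ∈ O, ((V k : ℝ) - U k) := by
      rw [← nsmul_eq_mul]
      apply Finset.card_nsmul_le_sum
      intro k hk
      obtain ⟨-, ⟨r, hr1, hr2, hr3⟩, ⟨s, hs1, hs2, hs3⟩⟩ := Finset.mem_filter.1 hk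
      by_contra hcon
      push Not at hcon
      have e1 : (U k : ℝ) ≤ r := hr1
      have e2 : (r : ℝ) ≤ V k := hr2
      have e3 : (U k : ℝ) ≤ s := hs1
      have e4 : (s : ℝ) ≤ V k := hs2
      have h2 : |(r : ℝ) - s| < δ := by
        rw [abs_lt]
        constructor <;> linarith
      have h3 := hz r s h2
      rw [hr3, hs3] at h3
      norm_num at h3
    have h2 := sum_gap U V O 1 zero_le_one (fun i _ => (V i).2.2)
      (fun i hi j hj => hord i (Finset.mem_filter.1 hi).1 j (Finset.mem_filter.1 hj).1)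
    linarith
  -- remaining cells
  have hR : ∀ k : ℕ, ∃ p q : I01, k ∈ R → U k ≤ p ∧ p < q ∧ q ≤ V k ∧
      (∀ r, p < r → r < q → γ r ∉ K) ∧ D / (6 * P) ≤ dist (γ p) (γ q) := by
    intro k
    by_cases hk : k ∈ R
    · obtain ⟨hk1, hk2, hk3⟩ := Finset.mem_filter.1 hk
      obtain ⟨h1, h2, h3, h4, -⟩ := hUV k hk1
      obtain ⟨c, hc⟩ := loc_KK n k
      have hcell := cell (X := fun t => P * x t - k) (Y := fun t => P * y t - c) (Z := z)
        (hf.sub continuous_const) ((continuous_const.mul hy).sub continuous_const) (γ ⁻¹' K)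
        (fun t ht ht1 ht2 => hc _ (hK t ht) (by simpa using ht1) (by
          change P * x t < k + 1
          linarith)) h1 (by linarith) (by linarith)
        (fun r hr1 hr2 => by
          have := h4 r hr1 hr2
          constructor <;> linarith)
      rcases hcell with ⟨p, q, h5, h6, h7, h8, h9⟩ | h5
      · refine ⟨p, q, fun _ => ⟨h5, h6, h7, h8, ?_⟩⟩
        rw [div_le_iff₀ (by positivity)]
        rcases h9 with h9 | h9
        · have e : |P * x q - k - (P * x p - k)| = P * |x p - x q| := by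
            rw [← abs_neg, show -(P * x q - k - (P * x p - k)) = P * (x p - x q) by ring, abs_mul,
              abs_of_pos hP]
          rw [e] at h9
          have := mul_le_mul_of_nonneg_left (hd1 p q) hP.le
          have := mul_le_mul_of_nonneg_left h9 hD.le
          nlinarith
        · have e : |P * y q - c - (P * y p - c)| = P * |y p - y q| := by
            rw [← abs_neg, show -(P * y q - c - (P * y p - c)) = P * (y p - y q) by ring, abs_mul,
              abs_of_pos hP]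
          rw [e] at h9
          have := mul_le_mul_of_nonneg_left (hd2 p q) hP.le
          have := mul_le_mul_of_nonneg_left h9 hD.le
          nlinarith
      · exact absurd h5 hk3
    · exact ⟨0, 0, fun h => absurd h hk⟩
  choose p q hpq using hR
  obtain ⟨𝓘, h𝓘, h𝓘s⟩ := family (γ := γ) (K := K) p q R (fun i hi => (hpq i hi).2.1)
    (fun i hi j hj hij => (hpq i hi).2.2.1.trans ((hord i (Finset.mem_filter.1 hi).1 j
      (Finset.mem_filter.1 hj).1 hij).trans (hpq j hj).1))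
    (fun i hi t ht => (hpq i hi).2.2.2.1 t ht.1 ht.2)
  have hdisj : Disjoint 𝒥 𝓘 := by
    rw [Finset.disjoint_left]
    intro J hJ hJ'
    obtain ⟨i, hi, hsub⟩ := h𝓘 J hJ'
    obtain ⟨h1, h2, h3, -, -⟩ := hpq i hi
    obtain ⟨hi1, hi2, -⟩ := Finset.mem_filter.1 hi
    obtain ⟨t, ht1, ht2⟩ := exists_between h2
    exact hi2 ⟨J, hJ, t, hsub ⟨ht1, ht2⟩,
      (hUV i hi1).2.2.2.1 t (lt_of_le_of_lt h1 ht1) (lt_of_lt_of_le ht2 h3)⟩
  have hRsum : (R.card : ℝ) * (D / (6 * P)) ≤ ∑ J ∈ 𝓘, (eVariationOn γ J.1).toReal := by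
    have h1 : (R.card : ENNReal) * ENNReal.ofReal (D / (6 * P)) ≤
        ∑ i ∈ R, eVariationOn γ (Ioo (p i) (q i)) := by
      rw [← nsmul_eq_mul]
      apply Finset.card_nsmul_le_sum
      intro i hi
      refine le_trans ?_ (var_Ioo hγ (hpq i hi).2.1)
      rw [edist_dist]
      exact ENNReal.ofReal_le_ofReal (hpq i hi).2.2.2.2
    have h2 := h1.trans h𝓘s
    have h3 : (R.card : ENNReal) * ENNReal.ofReal (D / (6 * P)) =
        ENNReal.ofReal ((R.card : ℝ) * (D / (6 * P))) := by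
      rw [ENNReal.ofReal_mul (by positivity), ENNReal.ofReal_natCast]
    rw [h3, ENNReal.ofReal_le_iff_le_toReal (ENNReal.sum_ne_top.2 fun J _ => hv J),
      ENNReal.toReal_sum fun J _ => hv J] at h2
    exact h2
  have htwo : ∑ J ∈ 𝒥, (eVariationOn γ J.1).toReal + ∑ J ∈ 𝓘, (eVariationOn γ J.1).toReal ≤
      (lengthOutside γ K).toReal := by
    rw [← Finset.sum_union hdisj, htot]
    exact hsum.sum_le_tsum _ fun _ _ => ENNReal.toReal_nonneg
  have hRc : (R.card : ℝ) ≤ P * (6 * ε / D) := by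
    have h1 : (R.card : ℝ) * (D / (6 * P)) ≤ ε := by linarith
    have h2 : (R.card : ℝ) = (R.card : ℝ) * (D / (6 * P)) * (6 * P / D) := by
      field_simp
    have h3 : P * (6 * ε / D) = ε * (6 * P / D) := by ring
    rw [h2, h3]
    exact mul_le_mul_of_nonneg_right h1 (by positivity)
  have hfin : P * ∑ J ∈ 𝒥, (eVariationOn γ J.1).toReal / D ≤
      P * ((lengthOutside γ K).toReal / D) := by
    apply mul_le_mul_of_nonneg_left _ hP.le
    rw [← Finset.sum_div]
    apply div_le_div_of_nonneg_right _ hD.le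
    have : (0 : ℝ) ≤ ∑ J ∈ 𝓘, (eVariationOn γ J.1).toReal :=
      Finset.sum_nonneg fun _ _ => ENNReal.toReal_nonneg
    linarith
  rw [add_div, mul_add]
  linarith

/-- **Main estimate.** -/
theorem main {γ : I01 → E} (hγ : Continuous γ) {K : Set E} {x y z : I01 → ℝ}
    (hx : Continuous x) (hy : Continuous y) (hz : Continuous z) {D : ℝ} (hD : 0 < D)
    (hd1 : ∀ s t, D * |x s - x t| ≤ dist (γ s) (γ t))
    (hd2 : ∀ s t, D * |y s - y t| ≤ dist (γ s) (γ t))
    (hK : ∀ s, γ s ∈ K → (x s, y s, z s) ∈ KK) (h0 : 0 ≤ x 0) :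
    ENNReal.ofReal (D * (x 1 - x 0)) ≤ lengthOutside γ K := by
  by_cases hL : lengthOutside γ K = ⊤
  · rw [hL]; exact le_top
  rw [ENNReal.ofReal_le_iff_le_toReal hL]
  obtain ⟨δ, hδ, hδz⟩ := Metric.uniformContinuous_iff.1
    (CompactSpace.uniformContinuous_of_continuous hz) 1 one_pos
  have hz' : ∀ s t : I01, |(s : ℝ) - t| < δ → |z s - z t| < 1 := by
    intro s t hst
    have := hδz (a := s) (b := t) (by rw [Subtype.dist_eq, Real.dist_eq]; exact hst)
    rwa [Real.dist_eq] at this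
  have hv : ∀ J : Comp γ K, eVariationOn γ J.1 ≠ ⊤ := fun J => ENNReal.ne_top_of_tsum_ne_top hL J
  have hsum : Summable fun J : Comp γ K => (eVariationOn γ J.1).toReal :=
    ENNReal.summable_toReal hL
  have htot : (lengthOutside γ K).toReal = ∑' J : Comp γ K, (eVariationOn γ J.1).toReal :=
    ENNReal.tsum_toReal_eq hv
  by_contra hcon
  push Not at hcon
  set Δ := D * (x 1 - x 0) - (lengthOutside γ K).toReal with hΔ
  have hΔpos : 0 < Δ := by linarith
  obtain ⟨𝒥, h𝒥⟩ : ∃ 𝒥 : Finset (Comp γ K), (lengthOutside γ K).toReal - Δ / 12 <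
      ∑ J ∈ 𝒥, (eVariationOn γ J.1).toReal := by
    rw [htot]
    exact (hsum.hasSum.eventually (lt_mem_nhds (by linarith :
      ∑' J : Comp γ K, (eVariationOn γ J.1).toReal - Δ / 12 <
        ∑' J : Comp γ K, (eVariationOn γ J.1).toReal))).exists
  obtain ⟨n, hn⟩ := pow_unbounded_of_one_lt ((2 * 𝒥.card + 1 / δ + 2) / (Δ / (2 * D)))
    (show (1 : ℝ) < 3 by norm_num)
  rw [div_lt_iff₀ (by positivity)] at hn
  have h1 := level hγ hx hy hD hd1 hd2 hK h0 hL hδ hz' 𝒥 h𝒥 n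
  have h2 : (3 : ℝ) ^ n * (x 1 - x 0) -
      3 ^ n * (((lengthOutside γ K).toReal + 6 * (Δ / 12)) / D) = 3 ^ n * (Δ / (2 * D)) := by
    have h3 : (lengthOutside γ K).toReal = D * (x 1 - x 0) - Δ := by rw [hΔ]; ring
    rw [h3]
    field_simp
    ring
  linarith

/-- The length outside is at most the whole length. -/
theorem lengthOutside_le (γ : I01 → E) (K : Set E) :
    lengthOutside γ K ≤ eVariationOn γ univ := by
  classical
  have key : ∀ 𝒥 : Finset (Comp γ K), ∑ J ∈ 𝒥, eVariationOn γ J.1 ≤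
      eVariationOn γ (⋃ J ∈ 𝒥, J.1) := by
    have hrep : ∀ J : Comp γ K, ∃ t, t ∈ γ ⁻¹' Kᶜ ∧ J.1 = connectedComponentIn (γ ⁻¹' Kᶜ) t :=
      fun J => J.2
    choose t ht hJt using hrep
    have htJ : ∀ J, t J ∈ J.1 := fun J => by rw [hJt J]; exact mem_connectedComponentIn (ht J)
    have hord : ∀ J : Comp γ K, (J.1).OrdConnected := fun J => by
      rw [hJt J]; exact isPreconnected_connectedComponentIn.ordConnected
    have hdis : ∀ J J' : Comp γ K, J ≠ J' → ∀ s ∈ J.1, s ∉ J'.1 := by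
      intro J J' hne s hs hs'
      apply hne
      apply Subtype.ext
      rw [hJt J] at hs ⊢
      rw [hJt J'] at hs' ⊢
      rw [connectedComponentIn_eq hs, connectedComponentIn_eq hs']
    intro 𝒥
    induction 𝒥 using Finset.induction_on_max_value t with
    | empty => simp
    | insert a s has hmax ih =>
      rw [Finset.sum_insert has, add_comm]
      refine (add_le_add_left ih _).trans ?_
      refine (eVariationOn.add_le_union γ ?_).trans (eVariationOn.mono γ ?_)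
      · intro u hu v hv
        obtain ⟨J, hJ, huJ⟩ := mem_iUnion₂.1 hu
        have hne : J ≠ a := fun h => has (h ▸ hJ)
        by_contra hcon
        push Not at hcon
        rcases le_or_gt (t J) v with h1 | h1
        · exact hdis a J hne.symm v hv ((hord J).out (htJ J) huJ ⟨h1, hcon.le⟩)
        · exact hdis J a hne (t J) (htJ J) ((hord a).out hv (htJ a) ⟨h1.le, hmax J hJ⟩)
      · intro v hv
        rcases hv with hv | hv
        · obtain ⟨J, hJ, huJ⟩ := mem_iUnion₂.1 hv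
          exact mem_iUnion₂.2 ⟨J, Finset.mem_insert_of_mem hJ, huJ⟩
        · exact mem_iUnion₂.2 ⟨a, Finset.mem_insert_self _ _, hv⟩
  unfold lengthOutside
  rw [ENNReal.tsum_eq_iSup_sum]
  exact iSup_le fun 𝒥 => (key 𝒥).trans (eVariationOn.mono γ (subset_univ _))

end Pool.Agent.KS6_50.SE
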